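import Mathlib
import Pool.Agent.Q50.GS.Defs
import Pool.Agent.Y137.SL.Defs
import Pool.Agent.Y1.CT.UnrelDefs

/-!
# Points with an isogeny factor with a Frobenius element of a given slope type: definitions
-/

set_option autoImplicit false

namespace Pool.Agent.Q29.GS

open NumberField Module Pool.Agent.Q50.GS Pool.Agent.Y137.SL Pool.Agent.Y1.CT

section

variable {k : Type} [Field k] {V W : Type} [AddCommGroup V] [Module k V]
  [AddCommGroup W] [Module k W] {Γ : Type} [Group Γ]

/-- The representation on the sum of `r` copies of `V` and `W`. -/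
def sumRep (ρ : Representation k Γ V) (σ : Representation k Γ W) (r : ℕ) :
    Representation k Γ ((Fin r → V) × W) where
  toFun s := LinearMap.prodMap (LinearMap.pi fun j => ρ s ∘ₗ LinearMap.proj j) (σ s)
  map_one' := by
    rw [map_one, map_one]
    rfl
  map_mul' s t := by
    rw [map_mul, map_mul]
    rfl

/-- The action of `s` on the `n`-linear forms on `W`. -/
def onForms (σ : Representation k Γ W) (n : ℕ) (s : Γ) :
    Module.End k (MultilinearMap k (fun _ : Fin n => W) k) :=
  MultilinearMap.compLinearMapₗ (fun _ => σ s⁻¹)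

/-- The eigenvalues of `γ` on the multilinear forms on `W` are unrelated to the fields `K i`: on the
`n`-linear forms, `γ` is annihilated by a rational polynomial whose roots are unrelated. -/
def FormsUnrelated [CharZero k] {I : Type} (K : I → Type) [∀ i, Field (K i)]
    (σ : Representation k Γ W) (γ : Γ) : Prop :=
  ∀ n : ℕ, ∃ f : Polynomial ℚ, f ≠ 0 ∧
    Polynomial.aeval (onForms σ n γ) (f.map (algebraMap ℚ k)) = 0 ∧
    ∀ α : ℂ, Polynomial.aeval α f = 0 → ∀ i, UnrelatedTo (K i) α

/-- The bilinear forms on `V` which a subgroup of finite index of `D` multiplies by `χ` (at the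
point) are multiplied by `χ` by a subgroup of finite index of `G` (on the variety). -/
def FormsExtend {G D : Type} [Group G] [Group D] (ρ : Representation k G V) (χ : G →* k)
    (i : D →* G) : Prop :=
  ∀ b : V →ₗ[k] V →ₗ[k] k,
    (∃ Δ : Subgroup D, Δ.FiniteIndex ∧ ∀ s ∈ Δ, ∀ u v,
      b (ρ (i s) u) (ρ (i s) v) = χ (i s) * b u v) →
    ∃ Δ : Subgroup G, Δ.FiniteIndex ∧ ∀ s ∈ Δ, ∀ u v, b (ρ s u) (ρ s v) = χ s * b u v

end

/-- Let `x` be a point on the varieties `y`, and let the abelian variety over `y` be isogenous to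
`B ^ (r + 1) × C`. Let `V` and `W` be the rational Tate modules of `B` and `C` (the fibre at `x`), with the
action of the arithmetic fundamental group `G y` of `y`, and let `i y` be the homomorphism of the Galois
group `D y` of the residue field of `x` to `G y`. Suppose that at `x` there is a Frobenius element `γ`
which has the characteristic polynomial `∏ i, minpoly (π i)` on `V` and whose eigenvalues on the
multilinear forms on `W` are unrelated to the fields `K i`. Then `x` is `ℓ`-Galois special if and only
if for each `y` some endomorphism of `B` at `x` does not extend to `y` (up to finite covers), or the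
algebraic monodromy groups of `C` at `x` and over `y` are different. -/
def ReducesTo {p : ℕ} [Fact p.Prime] (a : ℕ) {I : Type} [Fintype I] (K : I → Type)
    [∀ i, Field (K i)] [∀ i, NumberField (K i)] (π : ∀ i, K i) : Prop :=
  ∀ (ℓ : ℕ) [Fact ℓ.Prime] (V W : Type) [AddCommGroup V] [Module ℚ_[ℓ] V]
    [FiniteDimensional ℚ_[ℓ] V] [AddCommGroup W] [Module ℚ_[ℓ] W] [FiniteDimensional ℚ_[ℓ] W]
    (ι : Type) (D G : ι → Type) [∀ y, Group (D y)] [∀ y, Group (G y)]
    (B : ∀ y, Representation ℚ_[ℓ] (G y) V) (C : ∀ y, Representation ℚ_[ℓ] (G y) W)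
    (χ : ∀ y, G y →* ℚ_[ℓ]) (i : ∀ y, D y →* G y) (γ : ∀ y, D y) (r : ℕ),
    (∀ y, IsPolarised ((B y).comp (i y)) ((χ y).comp (i y)) (γ y) p a π) →
    (∀ y, FormsUnrelated K ((C y).comp (i y)) (γ y)) →
    (IsGaloisSpecial (fun y => sumRep (B y) (C y) (r + 1)) χ i ↔
      ∀ y, ¬ FormsExtend (B y) (χ y) (i y) ∨ ¬ SameGroup (C y) (χ y) (i y))

end Pool.Agent.Q29.GS
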