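import Pool.Agent.Q29.GS.Main

/-!
# `ℓ`-Galois special points with an isogeny factor with a Frobenius element of a given slope type
-/

set_option autoImplicit false
set_option linter.unusedSectionVars false

namespace Pool.Agent.Q29.GS

open NumberField Module Pool.Agent.Q50.GS Pool.Agent.Y137.SL Pool.Agent.Y137.MV Pool.Agent.Y1.CT
  Pool.Agent.Y1.TS

section

variable {ℓ : ℕ} [Fact ℓ.Prime] {V W : Type} [AddCommGroup V] [Module ℚ_[ℓ] V]
  [AddCommGroup W] [Module ℚ_[ℓ] W] {G D : Type} [Group G] [Group D]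

theorem char_ne_zero (χ : G →* ℚ_[ℓ]) (s : G) : χ s ≠ 0 := by
  intro h
  have h1 : χ s * χ s⁻¹ = 1 := by rw [← map_mul, mul_inv_cancel, map_one]
  rw [h, zero_mul] at h1
  exact zero_ne_one h1

theorem rep_inv (σ : Representation ℚ_[ℓ] G W) (s : G) (x : W) : σ s (σ s⁻¹ x) = x := by
  rw [← Module.End.mul_apply, ← map_mul, mul_inv_cancel, map_one]
  rfl

theorem rep_inv' (σ : Representation ℚ_[ℓ] G W) (s : G) (x : W) : σ s⁻¹ (σ s x) = x := by
  rw [← Module.End.mul_apply, ← map_mul, inv_mul_cancel, map_one]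
  rfl

/-- Tate vectors of the representation on forms at the point extend. -/
theorem tateVector_extend {σ : Representation ℚ_[ℓ] G W} {χ : G →* ℚ_[ℓ]} {i : D →* G}
    (hS : SameGroup σ χ i) {m m' n : ℕ} (hn : 2 * m' + n = 2 * m)
    (w : MultilinearMap ℚ_[ℓ] (fun _ : Fin n => W) ℚ_[ℓ])
    (h : IsTateVector ((formRep σ χ m n).comp i) (χ.comp i) m' w) :
    IsTateVector (formRep σ χ m n) χ m' w := by
  obtain ⟨Δ, hΔ, h1⟩ := h
  have hm : m' ≤ m := by omega
  have hpow : ∀ x : ℚ_[ℓ], x ^ m = x ^ m' * x ^ (m - m') := by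
    intro x
    rw [← pow_add]
    congr 1
    omega
  have e : Fin n ≃ Fin (m - m') × Fin 2 := Fintype.equivOfCardEq (by
    rw [Fintype.card_prod, Fintype.card_fin, Fintype.card_fin, Fintype.card_fin]
    omega)
  have h2 : IsTate (σ.comp i) (χ.comp i) (m - m') (w.domDomCongr e) := by
    refine ⟨Δ, hΔ, fun s hs v => ?_⟩
    have h3 := congrArg (fun ψ => ψ (fun b => σ (i s) (v (e b)))) (h1 s hs)
    have h4 : χ (i s) ^ m * w (fun b => σ (i s)⁻¹ (σ (i s) (v (e b)))) =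
        χ (i s) ^ m' * w (fun b => σ (i s) (v (e b))) := h3
    simp only [rep_inv'] at h4
    have h5 : χ (i s) ^ m' ≠ 0 := pow_ne_zero _ (char_ne_zero χ _)
    change w (fun b => σ (i s) (v (e b))) = χ (i s) ^ (m - m') * w (fun b => v (e b))
    refine mul_left_cancel₀ h5 ?_
    rw [← h4, hpow, mul_assoc]
  obtain ⟨Δ', hΔ', h3⟩ := hS (m - m') _ h2
  refine ⟨Δ', hΔ', fun s hs => MultilinearMap.ext fun x => ?_⟩
  have h4 := h3 s hs (fun l => σ s⁻¹ (x (e.symm l)))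
  have h5 : w (fun b => σ s (σ s⁻¹ (x (e.symm (e b))))) =
      χ s ^ (m - m') * w (fun b => σ s⁻¹ (x (e.symm (e b)))) := h4
  simp only [rep_inv, Equiv.symm_apply_apply] at h5
  have h6 : formRep σ χ m n s w x = χ s ^ m * w (fun b => σ s⁻¹ (x b)) := rfl
  rw [h6, hpow, mul_assoc, ← h5]
  rfl

/-- One component of a Tate form on `V ^ R × W` at the point is a Tate form on the variety. -/
theorem part_extend {R m : ℕ} {ρ : Representation ℚ_[ℓ] G V} {σ : Representation ℚ_[ℓ] G W}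
    {χ : G →* ℚ_[ℓ]} {i : D →* G}
    (hsplit : ∀ n, ClassesSplit (ρ.comp i) (χ.comp i) ((formRep σ χ m n).comp i))
    (hE : FormsExtend ρ χ i) (hS : SameGroup σ χ i)
    {φ : MultilinearMap ℚ_[ℓ] (fun _ : Fin m × Fin 2 => (Fin R → V) × W) ℚ_[ℓ]}
    (hφ : IsTate ((sumRep ρ σ R).comp i) (χ.comp i) m φ) (c : Fin m × Fin 2 → Option (Fin R)) :
    ∃ Δ : Subgroup G, Δ.FiniteIndex ∧ ∀ s ∈ Δ, ∀ v : Fin m × Fin 2 → (Fin R → V) × W,
      φ (fun l => partMap (k := ℚ_[ℓ]) R (c l) (sumRep ρ σ R s (v l))) =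
        χ s ^ m * φ (fun l => partMap (k := ℚ_[ℓ]) R (c l) (v l)) := by
  classical
  obtain ⟨Δ, hΔ, h1⟩ := hφ
  obtain ⟨n, m', ⟨e, j, hc⟩ | ⟨e, j, hc⟩⟩ := exists_index c
  · have hn : 2 * m' + n = 2 * m := by
      have h2 := Fintype.card_congr e
      rw [Fintype.card_sum, Fintype.card_prod, Fintype.card_prod, Fintype.card_fin,
        Fintype.card_fin, Fintype.card_fin, Fintype.card_fin] at h2
      omega
    set g := altOf (Fintype.equivFin (Fin m' × Fin 2)) (ev φ e j) with hg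
    have h2 : IsEquivariant (ρ.comp i) ((formRep σ χ m n).comp i) g := by
      refine ⟨Δ, hΔ, fun s hs v => ?_⟩
      exact altOf_equivariant _ _ ρ (formRep σ χ m n) (i s)
        (ev_equivariant e j ρ σ χ (fun v => h1 s hs v)) v
    have h3 := (hsplit n).1 _ _ g h2
    have h4 : IsEquivariant ρ (formRep σ χ m n) g := equivariant_of_span i h3
      (fun B hB => tateForm_extend hE B hB) (fun w hw => tateVector_extend hS hn w hw)
    obtain ⟨Δ', hΔ', h5⟩ := h4
    refine ⟨Δ', hΔ', fun s hs v => part_tate hc (fun u => ?_) v⟩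
    have h6 := h5 s hs (fun l => Pi.single (Fintype.equivFin (Fin m' × Fin 2) l) (u l))
    have h7 : (fun (l : Fin m' × Fin 2) (j' : Fin (Fintype.card (Fin m' × Fin 2))) =>
        ρ s ((Pi.single (Fintype.equivFin (Fin m' × Fin 2) l) (u l) : Fin _ → V) j')) =
        fun l => Pi.single (Fintype.equivFin (Fin m' × Fin 2) l) (ρ s (u l)) :=
      funext fun l => single_map (fun x => ρ s x) (map_zero _) _ _
    rw [h7, hg, altOf_single, altOf_single] at h6
    exact h6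
  · have h2 : IsEquivariant (ρ.comp i) ((formRep σ χ m n).comp i)
        (altOf (Fintype.equivFin (Fin (2 * m' + 1))) (ev φ e j)) := by
      refine ⟨Δ, hΔ, fun s hs v => ?_⟩
      exact altOf_equivariant _ _ ρ (formRep σ χ m n) (i s)
        (ev_equivariant e j ρ σ χ (fun v => h1 s hs v)) v
    have h3 := (hsplit n).2 _ _ _ h2
    have h4 : ∀ u, ev φ e j u = 0 := by
      intro u
      rw [← altOf_single (Fintype.equivFin (Fin (2 * m' + 1))) (ev φ e j) u, h3]
      rfl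
    refine ⟨⊤, inferInstance, fun s _ v => ?_⟩
    rw [part_of_ev hc, part_of_ev hc, h4, h4]
    simp

/-- **The algebraic monodromy groups of `B ^ R × C` at the point and over the variety are equal** if
the forms of degree two on `B` extend and the groups of `C` are equal. -/
theorem sameGroup_of {R : ℕ} {ρ : Representation ℚ_[ℓ] G V} {σ : Representation ℚ_[ℓ] G W}
    {χ : G →* ℚ_[ℓ]} {i : D →* G}
    (hsplit : ∀ m n, ClassesSplit (ρ.comp i) (χ.comp i) ((formRep σ χ m n).comp i))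
    (hE : FormsExtend ρ χ i) (hS : SameGroup σ χ i) : SameGroup (sumRep ρ σ R) χ i := by
  intro m φ hφ
  choose Δ hΔ h1 using part_extend (hsplit m) hE hS hφ
  have : (⨅ c, Δ c).FiniteIndex := Subgroup.finiteIndex_iInf hΔ
  refine ⟨⨅ c, Δ c, inferInstance, fun s hs v => ?_⟩
  have hsc : ∀ c, s ∈ Δ c := fun c => (Subgroup.mem_iInf.1 hs) c
  rw [form_sum φ v, form_sum φ, Finset.mul_sum]
  exact Finset.sum_congr rfl fun c _ => h1 c s (hsc c) v

/-- The form on `V ^ (r + 1) × W` defined by a bilinear form on the first copy of `V`. -/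
noncomputable def formOf (r : ℕ) (b : V →ₗ[ℚ_[ℓ]] V →ₗ[ℚ_[ℓ]] ℚ_[ℓ]) :
    MultilinearMap ℚ_[ℓ] (fun _ : Fin 1 × Fin 2 => (Fin (r + 1) → V) × W) ℚ_[ℓ] where
  toFun v := b ((v (0, 0)).1 0) ((v (0, 1)).1 0)
  map_update_add' := by
    intro _ v l x y
    obtain ⟨l0, l1⟩ := l
    obtain rfl : l0 = 0 := Subsingleton.elim _ _
    fin_cases l1
    · simp
    · simp
  map_update_smul' := by
    intro _ v l c x
    obtain ⟨l0, l1⟩ := l
    obtain rfl : l0 = 0 := Subsingleton.elim _ _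
    fin_cases l1
    · simp
    · simp

theorem of_sameGroup {r : ℕ} {ρ : Representation ℚ_[ℓ] G V} {σ : Representation ℚ_[ℓ] G W}
    {χ : G →* ℚ_[ℓ]} {i : D →* G} (h : SameGroup (sumRep ρ σ (r + 1)) χ i) :
    FormsExtend ρ χ i ∧ SameGroup σ χ i := by
  constructor
  · rintro b ⟨Δ, hΔ, h1⟩
    obtain ⟨Δ', hΔ', h2⟩ := h 1 (formOf r b) ⟨Δ, hΔ, fun s hs v => by
      rw [pow_one]
      exact h1 s hs _ _⟩
    refine ⟨Δ', hΔ', fun s hs u v => ?_⟩
    have h3 := h2 s hs (fun l => ((fun _ => if l.2 = 0 then u else v : Fin (r + 1) → V), (0 : W)))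
    rw [pow_one] at h3
    exact h3
  · intro m φ hφ
    obtain ⟨Δ, hΔ, h1⟩ := hφ
    obtain ⟨Δ', hΔ', h2⟩ := h m (φ.compLinearMap fun _ => LinearMap.snd ℚ_[ℓ] (Fin (r + 1) → V) W)
      ⟨Δ, hΔ, fun s hs v => h1 s hs _⟩
    exact ⟨Δ', hΔ', fun s hs w => h2 s hs (fun l => ((0 : Fin (r + 1) → V), w l))⟩

theorem formRep_comp (σ : Representation ℚ_[ℓ] G W) (χ : G →* ℚ_[ℓ]) (i : D →* G) (m n : ℕ)
    (s : D) : formRep (σ.comp i) (χ.comp i) m n s = ((formRep σ χ m n).comp i) s := by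
  refine LinearMap.ext fun ψ => MultilinearMap.ext fun w => ?_
  have h1 : formRep (σ.comp i) (χ.comp i) m n s ψ w =
      χ (i s) ^ m * ψ (fun b => σ (i s⁻¹) (w b)) := rfl
  have h2 : ((formRep σ χ m n).comp i) s ψ w = χ (i s) ^ m * ψ (fun b => σ (i s)⁻¹ (w b)) := rfl
  rw [h1, h2, map_inv]

end

/-- **`ℓ`-Galois special points.** -/
theorem reducesTo {p : ℕ} [Fact p.Prime] {a : ℕ} {I : Type} [Fintype I] {K : I → Type}
    [∀ i, Field (K i)] [∀ i, NumberField (K i)] [∀ i, IsCMField (K i)] {π : ∀ i, K i}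
    (h : TateClassesSplit (p := p) a K π) : ReducesTo (p := p) a K π := by
  intro ℓ _ V W _ _ _ _ _ _ ι D G _ _ B C χ i γ r hB hC
  refine forall_congr' fun y => ?_
  rw [← not_and_or]
  refine not_congr ⟨fun h1 => of_sameGroup h1, fun h1 => sameGroup_of (fun m n => ?_) h1.1 h1.2⟩
  obtain ⟨hss, hω, hχ, hγ⟩ := hB y
  have hχ' : ((χ y).comp (i y)) (γ y) = ((p ^ a : ℕ) : ℚ_[ℓ]) := by
    rw [hχ]
    push_cast
    rfl
  obtain ⟨f, hf0, hf, hu⟩ := exists_poly (hC y) (pow_ne_zero a (Fact.out : p.Prime).ne_zero)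
    hχ' m n
  rw [formRep_comp] at hf
  exact h ℚ_[ℓ] V (MultilinearMap ℚ_[ℓ] (fun _ : Fin n => W) ℚ_[ℓ]) (D y)
    ((B y).comp (i y)) ((formRep (C y) (χ y) m n).comp (i y)) ((χ y).comp (i y)) (γ y)
    ⟨hss, hω, hχ, hγ⟩ f hf0 hf hu

end Pool.Agent.Q29.GS
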