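import Pool.Agent.Q29.GS.Defs
import Pool.Agent.Y1.TS.Defs

/-!
# The representation on the multilinear forms, and alternating forms from multilinear forms
-/

set_option autoImplicit false
set_option linter.unusedSectionVars false

namespace Pool.Agent.Q29.GS

open NumberField Module Pool.Agent.Q50.GS Pool.Agent.Y137.SL Pool.Agent.Y137.MV Pool.Agent.Y1.CT
  Pool.Agent.Y1.TS

section

variable {k : Type} [Field k] {V W : Type} [AddCommGroup V] [Module k V]
  [AddCommGroup W] [Module k W] {Γ : Type} [Group Γ]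

theorem sumRep_apply (ρ : Representation k Γ V) (σ : Representation k Γ W) (r : ℕ) (s : Γ)
    (v : (Fin r → V) × W) : sumRep ρ σ r s v = (fun j => ρ s (v.1 j), σ s v.2) := rfl

theorem onForms_apply (σ : Representation k Γ W) (n : ℕ) (s : Γ)
    (ψ : MultilinearMap k (fun _ : Fin n => W) k) (w : Fin n → W) :
    onForms σ n s ψ w = ψ (fun b => σ s⁻¹ (w b)) := rfl

/-- The `n`-linear forms on `W`, twisted by `χ ^ m`. -/
def formRep (σ : Representation k Γ W) (χ : Γ →* k) (m n : ℕ) :
    Representation k Γ (MultilinearMap k (fun _ : Fin n => W) k) where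
  toFun s := χ s ^ m • onForms σ n s
  map_one' := by
    refine LinearMap.ext fun ψ => MultilinearMap.ext fun w => ?_
    rw [LinearMap.smul_apply, MultilinearMap.smul_apply, onForms_apply, map_one, one_pow, one_smul,
      inv_one, map_one]
    rfl
  map_mul' s t := by
    refine LinearMap.ext fun ψ => MultilinearMap.ext fun w => ?_
    rw [LinearMap.smul_apply, MultilinearMap.smul_apply, onForms_apply, Module.End.mul_apply,
      LinearMap.smul_apply, MultilinearMap.smul_apply, onForms_apply, LinearMap.smul_apply,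
      MultilinearMap.smul_apply, onForms_apply, map_mul, mul_pow, mul_inv_rev, map_mul, smul_eq_mul,
      smul_eq_mul, smul_eq_mul, mul_assoc]
    rfl

theorem formRep_apply (σ : Representation k Γ W) (χ : Γ →* k) (m n : ℕ) (s : Γ)
    (ψ : MultilinearMap k (fun _ : Fin n => W) k) (w : Fin n → W) :
    formRep σ χ m n s ψ w = χ s ^ m * ψ (fun b => σ s⁻¹ (w b)) := rfl

theorem unrelatedTo_mul {K : Type} [Field K] {c : ℚ} (hc : c ≠ 0) {α : ℂ}
    (h : UnrelatedTo K ((c : ℂ)⁻¹ * α)) : UnrelatedTo K α := by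
  intro n hn hτ
  refine h n hn fun τ hm φ => hτ τ ?_ φ
  obtain ⟨m, hm, h1⟩ := hm
  refine ⟨m, hm, ?_⟩
  have hc' : ((c : ℂ)⁻¹) ^ m ≠ 0 := pow_ne_zero _ (inv_ne_zero (Rat.cast_ne_zero.2 hc))
  rw [mul_pow, map_mul] at h1
  have h2 : τ (((c : ℂ)⁻¹) ^ m) = ((c : ℂ)⁻¹) ^ m := by
    rw [map_pow, map_inv₀, map_ratCast]
  rw [h2] at h1
  exact mul_left_cancel₀ hc' h1

variable [CharZero k]

/-- The polynomial for the twisted forms. -/
theorem exists_poly {I : Type} {K : I → Type} [∀ i, Field (K i)] {σ : Representation k Γ W}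
    {χ : Γ →* k} {γ : Γ} (hF : FormsUnrelated K σ γ) {q : ℕ} (hq : q ≠ 0) (hχ : χ γ = q)
    (m n : ℕ) : ∃ f : Polynomial ℚ, f ≠ 0 ∧
      Polynomial.aeval (formRep σ χ m n γ) (f.map (algebraMap ℚ k)) = 0 ∧
      ∀ α : ℂ, Polynomial.aeval α f = 0 → ∀ i, UnrelatedTo (K i) α := by
  obtain ⟨f, hf0, hf, hu⟩ := hF n
  set c : ℚ := (q : ℚ) ^ m with hc
  have hc0 : c ≠ 0 := pow_ne_zero _ (Nat.cast_ne_zero.2 hq)
  refine ⟨f.comp (Polynomial.C c⁻¹ * Polynomial.X), ?_, ?_, ?_⟩
  · intro h0
    refine hf0 ?_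
    have h1 : (f.comp (Polynomial.C c⁻¹ * Polynomial.X)).comp (Polynomial.C c * Polynomial.X) =
        f := by
      rw [Polynomial.comp_assoc]
      simp only [Polynomial.mul_comp, Polynomial.C_comp, Polynomial.X_comp]
      rw [← mul_assoc, ← Polynomial.C_mul, inv_mul_cancel₀ hc0, Polynomial.C_1, one_mul,
        Polynomial.comp_X]
    rw [← h1, h0, Polynomial.zero_comp]
  · have h1 : formRep σ χ m n γ = (algebraMap ℚ k c) • onForms σ n γ := by
      change χ γ ^ m • onForms σ n γ = _
      rw [hχ, hc, map_pow, map_natCast]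
    rw [h1, Polynomial.map_comp, Polynomial.aeval_comp]
    simp only [Polynomial.map_mul, Polynomial.map_C, Polynomial.map_X, map_mul, Polynomial.aeval_C,
      Polynomial.aeval_X]
    rw [← hf]
    congr 1
    rw [← Algebra.smul_def, smul_smul, ← map_mul, inv_mul_cancel₀ hc0, map_one, one_smul]
  · intro α hα i
    refine unrelatedTo_mul hc0 (hu _ ?_ i)
    rw [Polynomial.aeval_comp] at hα
    simpa using hα

end

section alt

variable {k : Type} [Field k] {V M : Type} [AddCommGroup V] [Module k V] [AddCommGroup M]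
  [Module k M] {Γ : Type} [Group Γ] {A : Type} [Fintype A] [DecidableEq A] {n : ℕ}

/-- The alternating map on `V ^ n` attached to a multilinear map with `n` variables. -/
noncomputable def altOf (e : A ≃ Fin n) (f : MultilinearMap k (fun _ : A => V) M) :
    (Fin n → V) [⋀^A]→ₗ[k] M :=
  MultilinearMap.alternatization (f.compLinearMap fun l => LinearMap.proj (e l))

theorem altOf_apply (e : A ≃ Fin n) (f : MultilinearMap k (fun _ : A => V) M)
    (v : A → Fin n → V) :
    altOf e f v = ∑ σ : Equiv.Perm A, Equiv.Perm.sign σ • f (fun l => v (σ l) (e l)) := by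
  rw [altOf, MultilinearMap.alternatization_apply]
  rfl

theorem altOf_single (e : A ≃ Fin n) (f : MultilinearMap k (fun _ : A => V) M) (u : A → V) :
    altOf e f (fun l => Pi.single (e l) (u l)) = f u := by
  rw [altOf_apply, Finset.sum_eq_single (1 : Equiv.Perm A)]
  · simp
  · intro σ _ hσ
    have h1 : ∃ l, σ l ≠ l := by
      by_contra hcon
      push Not at hcon
      exact hσ (Equiv.ext hcon)
    obtain ⟨l, hl⟩ := h1
    have h2 : f (fun l => (Pi.single (e (σ l)) (u (σ l)) : Fin n → V) (e l)) = 0 := by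
      refine f.map_coord_zero l ?_
      rw [Pi.single_apply, if_neg]
      intro h
      exact hl (e.injective h).symm
    rw [h2, smul_zero]
  · intro h
    exact absurd (Finset.mem_univ _) h

theorem altOf_equivariant (e : A ≃ Fin n) (f : MultilinearMap k (fun _ : A => V) M)
    (ρ : Representation k Γ V) (τ : Representation k Γ M) (s : Γ)
    (h : ∀ u : A → V, f (fun l => ρ s (u l)) = τ s (f u)) (v : A → Fin n → V) :
    altOf e f (fun l j => ρ s (v l j)) = τ s (altOf e f v) := by
  rw [altOf_apply, altOf_apply, map_sum]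
  refine Finset.sum_congr rfl fun σ _ => ?_
  rw [h (fun l => v (σ l) (e l))]
  exact (map_zsmul_unit (τ s) (Equiv.Perm.sign σ) _).symm

end alt

end Pool.Agent.Q29.GS
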