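import Pool.Agent.Q29.GS.Transfer

/-!
# The algebraic monodromy group of `B ^ r × C` at a point and over a variety
-/

set_option autoImplicit false
set_option linter.unusedSectionVars false

namespace Pool.Agent.Q29.GS

open NumberField Module Pool.Agent.Q50.GS Pool.Agent.Y137.SL Pool.Agent.Y137.MV Pool.Agent.Y1.CT
  Pool.Agent.Y1.TS

section components

variable {k : Type} [Field k] {V W : Type} [AddCommGroup V] [Module k V]
  [AddCommGroup W] [Module k W] {G D : Type} [Group G] [Group D] {κ A : Type} [Fintype κ]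
  [DecidableEq κ] [Fintype A] [DecidableEq A] {R n : ℕ}

/-- The part of a vector with the index `o`. -/
def partMap (R : ℕ) : Option (Fin R) → (((Fin R → V) × W) →ₗ[k] ((Fin R → V) × W))
  | some j => LinearMap.inl k (Fin R → V) W ∘ₗ LinearMap.single k (fun _ : Fin R => V) j ∘ₗ
      LinearMap.proj j ∘ₗ LinearMap.fst k (Fin R → V) W
  | none => LinearMap.inr k (Fin R → V) W ∘ₗ LinearMap.snd k (Fin R → V) W

theorem partMap_some (j : Fin R) (h : (Fin R → V) × W) :
    partMap (k := k) R (some j) h = (Pi.single j (h.1 j), 0) := rfl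

theorem partMap_none (h : (Fin R → V) × W) : partMap (k := k) R none h = (0, h.2) := rfl

theorem sum_partMap (h : (Fin R → V) × W) : ∑ o : Option (Fin R), partMap (k := k) R o h = h := by
  rw [Fintype.sum_option, partMap_none]
  simp only [partMap_some]
  have h1 : ∑ j : Fin R, ((Pi.single j (h.1 j) : Fin R → V), (0 : W)) = (h.1, 0) := by
    refine Prod.ext ?_ ?_
    · rw [Prod.fst_sum]
      exact Finset.univ_sum_single h.1
    · rw [Prod.snd_sum]
      simp
  rw [h1]
  simp

theorem form_sum (φ : MultilinearMap k (fun _ : κ => (Fin R → V) × W) k)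
    (v : κ → (Fin R → V) × W) :
    φ v = ∑ c : κ → Option (Fin R), φ (fun l => partMap (k := k) R (c l) (v l)) := by
  have h := φ.map_sum (fun (l : κ) (c : Option (Fin R)) => partMap (k := k) R c (v l))
  rw [← h]
  congr 1
  funext l
  exact (sum_partMap (v l)).symm

/-- The component of a multilinear form, as a multilinear map from `V` to the forms on `W`. -/
def ev (φ : MultilinearMap k (fun _ : κ => (Fin R → V) × W) k) (e : κ ≃ A ⊕ Fin n)
    (j : A → Fin R) :
    MultilinearMap k (fun _ : A => V) (MultilinearMap k (fun _ : Fin n => W) k) :=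
  (MultilinearMap.compLinearMapₗ
    (fun _ : Fin n => LinearMap.inr k (Fin R → V) W)).compMultilinearMap
    ((φ.domDomCongr e).currySum.compLinearMap
      (fun a => LinearMap.inl k (Fin R → V) W ∘ₗ LinearMap.single k (fun _ : Fin R => V) (j a)))

theorem ev_apply (φ : MultilinearMap k (fun _ : κ => (Fin R → V) × W) k) (e : κ ≃ A ⊕ Fin n)
    (j : A → Fin R) (u : A → V) (w : Fin n → W) :
    ev φ e j u w = φ (fun l => Sum.elim (fun a => ((Pi.single (j a) (u a) : Fin R → V), (0 : W)))
      (fun b => ((0 : Fin R → V), w b)) (e l)) := by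
  rfl

theorem single_map (ρ : V → V) (h0 : ρ 0 = 0) {n : ℕ} (j : Fin n) (u : V) :
    (fun j' => ρ ((Pi.single j u : Fin n → V) j')) = Pi.single j (ρ u) := by
  funext j'
  by_cases hj : j' = j
  · subst hj
    simp
  · rw [Pi.single_eq_of_ne hj, Pi.single_eq_of_ne hj, h0]

theorem ev_equivariant {φ : MultilinearMap k (fun _ : κ => (Fin R → V) × W) k}
    (e : κ ≃ A ⊕ Fin n) (j : A → Fin R) (ρ : Representation k G V) (σ : Representation k G W)
    (χ : G →* k) {m : ℕ} {s : G}
    (h : ∀ v, φ (fun l => sumRep ρ σ R s (v l)) = χ s ^ m * φ v) (u : A → V) :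
    ev φ e j (fun a => ρ s (u a)) = formRep σ χ m n s (ev φ e j u) := by
  refine MultilinearMap.ext fun w => ?_
  rw [formRep_apply, ev_apply, ev_apply, ← h]
  congr 1
  funext l
  rcases e l with a | b
  · rw [Sum.elim_inl, Sum.elim_inl, sumRep_apply]
    refine Prod.ext ?_ ?_
    · exact (single_map (fun x => ρ s x) (map_zero _) (j a) (u a)).symm
    · exact (map_zero _).symm
  · rw [Sum.elim_inr, Sum.elim_inr, sumRep_apply]
    refine Prod.ext ?_ ?_
    · funext j'
      exact (map_zero _).symm
    · change w b = σ s (σ s⁻¹ (w b))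
      rw [← Module.End.mul_apply, ← map_mul, mul_inv_cancel, map_one]
      rfl

/-- The component of a form is a Tate form on the variety if its `ev` is equivariant. -/
theorem part_of_ev {φ : MultilinearMap k (fun _ : κ => (Fin R → V) × W) k}
    {e : κ ≃ A ⊕ Fin n} {j : A → Fin R} {c : κ → Option (Fin R)}
    (hc : ∀ l, c l = Sum.elim (fun a => some (j a)) (fun _ => none) (e l))
    (v : κ → (Fin R → V) × W) :
    φ (fun l => partMap (k := k) R (c l) (v l)) =
      ev φ e j (fun a => (v (e.symm (Sum.inl a))).1 (j a))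
        (fun b => (v (e.symm (Sum.inr b))).2) := by
  rw [ev_apply]
  congr 1
  funext l
  have h1 := hc l
  rcases h2 : e l with a | b
  · rw [h2, Sum.elim_inl] at h1
    rw [h1, Sum.elim_inl, partMap_some]
    have h3 : e.symm (Sum.inl a) = l := by rw [← h2, e.symm_apply_apply]
    rw [h3]
  · rw [h2, Sum.elim_inr] at h1
    rw [h1, Sum.elim_inr, partMap_none]
    have h3 : e.symm (Sum.inr b) = l := by rw [← h2, e.symm_apply_apply]
    rw [h3]

theorem part_tate {φ : MultilinearMap k (fun _ : κ => (Fin R → V) × W) k}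
    {e : κ ≃ A ⊕ Fin n} {j : A → Fin R} {c : κ → Option (Fin R)}
    (hc : ∀ l, c l = Sum.elim (fun a => some (j a)) (fun _ => none) (e l))
    {ρ : Representation k G V} {σ : Representation k G W} {χ : G →* k} {m : ℕ} {s : G}
    (h : ∀ u : A → V, ev φ e j (fun a => ρ s (u a)) = formRep σ χ m n s (ev φ e j u))
    (v : κ → (Fin R → V) × W) :
    φ (fun l => partMap (k := k) R (c l) (sumRep ρ σ R s (v l))) =
      χ s ^ m * φ (fun l => partMap (k := k) R (c l) (v l)) := by
  rw [part_of_ev hc, part_of_ev hc]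
  have h1 : (fun a => (sumRep ρ σ R s (v (e.symm (Sum.inl a)))).1 (j a)) =
      fun a => ρ s ((v (e.symm (Sum.inl a))).1 (j a)) := rfl
  rw [h1, h, formRep_apply]
  congr 2
  funext b
  change σ s⁻¹ (σ s _) = _
  rw [← Module.End.mul_apply, ← map_mul, inv_mul_cancel, map_one]
  rfl

/-- The variables of a component. -/
theorem exists_index (c : κ → Option (Fin R)) : ∃ n m' : ℕ,
    (∃ (e : κ ≃ (Fin m' × Fin 2) ⊕ Fin n) (j : Fin m' × Fin 2 → Fin R),
      ∀ l, c l = Sum.elim (fun a => some (j a)) (fun _ => none) (e l)) ∨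
    ∃ (e : κ ≃ Fin (2 * m' + 1) ⊕ Fin n) (j : Fin (2 * m' + 1) → Fin R),
      ∀ l, c l = Sum.elim (fun a => some (j a)) (fun _ => none) (e l) := by
  have key : ∀ (A : Type) (hA : Nonempty ({l // (c l).isSome} ≃ A)), ∃ n : ℕ,
      ∃ (e : κ ≃ A ⊕ Fin n) (j : A → Fin R),
        ∀ l, c l = Sum.elim (fun a => some (j a)) (fun _ => none) (e l) := by
    rintro A ⟨eA⟩
    let eB : {l // ¬ (c l).isSome} ≃ Fin (Fintype.card {l // ¬ (c l).isSome}) :=
      Fintype.equivFin _
    refine ⟨_, (Equiv.sumCompl (fun l => (c l).isSome = true)).symm.trans (Equiv.sumCongr eA eB),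
      fun a => (c (eA.symm a)).get (eA.symm a).2, fun l => ?_⟩
    by_cases hl : (c l).isSome
    · have h1 : (Equiv.sumCompl (fun l => (c l).isSome = true)).symm l = Sum.inl ⟨l, hl⟩ :=
        Equiv.sumCompl_symm_apply_of_pos (p := fun l => (c l).isSome = true) hl
      rw [Equiv.trans_apply, h1]
      simp
    · have h1 : (Equiv.sumCompl (fun l => (c l).isSome = true)).symm l = Sum.inr ⟨l, hl⟩ :=
        Equiv.sumCompl_symm_apply_of_neg (p := fun l => (c l).isSome = true) hl
      rw [Equiv.trans_apply, h1]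
      simpa using hl
  rcases Nat.even_or_odd' (Fintype.card {l // (c l).isSome}) with ⟨m', h | h⟩
  · obtain ⟨n, hn⟩ := key (Fin m' × Fin 2) ⟨Fintype.equivOfCardEq (by
      rw [h, Fintype.card_prod, Fintype.card_fin, Fintype.card_fin, mul_comm])⟩
    exact ⟨n, m', Or.inl hn⟩
  · obtain ⟨n, hn⟩ := key (Fin (2 * m' + 1)) ⟨Fintype.equivOfCardEq (by
      rw [h, Fintype.card_fin])⟩
    exact ⟨n, m', Or.inr hn⟩

end components

end Pool.Agent.Q29.GS
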