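import Mathlib
import Pool.Agent.TH776.FM.MTDefs
import Pool.Agent.Q43.ST.Defs

/-!
# The motivic Sato-Tate conjecture for abelian varieties with given Frobenius eigenvalues: definition
-/

set_option autoImplicit false

namespace Pool.Agent.Q29.GS

open NumberField Module TensorProduct Pool.Agent.H204R3.GP Pool.Agent.TH776.FM Pool.Agent.Q43.ST

/-- **The motivic Tate conjecture and the motivic Sato-Tate conjecture** for all abelian varieties `A`
(over finitely generated subfields of the complex numbers), at which some Frobenius element `γ`, at a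
place with `q` elements in the residue field, has the characteristic polynomial `∏ i, minpoly (π i)`:
for all prime numbers `ℓ` and over all finite extensions (the fixed fields of the subgroups `Δ` of finite
index of the Galois group `Γ`) the `ℓ`-adic monodromy group of `h^1(A)` is the motivic Galois
group, and the kernels of the multipliers are equal (the groups of the points with values in all
commutative `ℚ_ℓ`-algebras `R`). -/
def SatoTate (q : ℕ) {I : Type} [Fintype I] (K : I → Type) [∀ i, Field (K i)]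
    [∀ i, NumberField (K i)] (π : ∀ i, K i) : Prop :=
  ∀ (ℓ : ℕ) [Fact ℓ.Prime] (H T Γ : Type) [AddCommGroup H] [Module ℚ H] [FiniteDimensional ℚ H]
    [AddCommGroup T] [Module ℂ T] [Group Γ] (per : H →+ T) (ω₀ : H →ₗ[ℚ] H →ₗ[ℚ] ℚ)
    (ρ : Representation ℚ_[ℓ] Γ (ℚ_[ℓ] ⊗[ℚ] H)) (χ : Γ →* ℚ_[ℓ])
    (ω : ℚ_[ℓ] ⊗[ℚ] H →ₗ[ℚ_[ℓ]] ℚ_[ℓ] ⊗[ℚ] H →ₗ[ℚ_[ℓ]] ℚ_[ℓ]),
    IsAbelianVariety per ω₀ ρ χ ω → GaloisActsOnHodge per ρ χ → ∀ γ : Γ, χ γ = q →
    (ρ γ).charpoly = (∏ i, minpoly ℚ (π i)).map (algebraMap ℚ ℚ_[ℓ]) →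
    ∀ Δ : Subgroup Γ, Δ.FiniteIndex → ∀ (R : Type) [CommRing R] [Algebra ℚ_[ℓ] R],
      monodromy ρ χ Δ R = motivic per ρ χ Δ R ∧
      multiplierKernel (monodromy ρ χ Δ R) = multiplierKernel (motivic per ρ χ Δ R)

end Pool.Agent.Q29.GS
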