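import Pool.Agent.Q29.GS.STDefs
import Pool.Agent.Q43.RP.DefsN
import Pool.Agent.Q43.RP.Mtl
import Pool.Agent.Q43.ST.Ker
import Pool.Agent.Y137.MV.Defs

/-!
# The motivic Sato-Tate conjecture for Weil numbers without relations
-/

set_option autoImplicit false

namespace Pool.Agent.Q29.GS

open NumberField Module TensorProduct Pool.Agent.H204R3.GP Pool.Agent.TH776.FM Pool.Agent.Q43.ST
  Pool.Agent.Y137.MV

/-- There are no relations if the angle rank is maximal. -/
theorem defect_zero {I : Type} [Fintype I] {K : I → Type} [∀ i, Field (K i)]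
    [∀ i, NumberField (K i)] {π : ∀ i, K i} {q : ℕ} (h : MaximalAngleRank q π) :
    Pool.Agent.Q43.RP.defect K π = 0 := by
  have h1 : Pool.Agent.Q43.RP.relations K π ⊆ {0} := by
    rintro a ⟨ha, s, hs, hprod⟩
    rw [Set.mem_singleton_iff]
    funext x
    have h2 : ∏ y : (Σ i, (K i →+* ℂ)), (y.2 (π y.1)) ^ ((s : ℤ) * a y) = (q : ℂ) ^ (0 : ℤ) := by
      rw [zpow_zero, ← hprod, ← Finset.prod_pow]
      refine Finset.prod_congr rfl fun y _ => ?_
      rw [mul_comm, zpow_mul, zpow_natCast]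
    have h3 := h 0 (fun y => (s : ℤ) * a y) h2 x.1 x.2
    have h4 := ha x
    rw [h4] at h3
    have hs' : (s : ℤ) ≠ 0 := by exact_mod_cast hs.ne'
    have h5 : a x = - a x := mul_left_cancel₀ hs' h3
    have h6 : a x = 0 := by omega
    exact h6
  have h2 : Submodule.span ℤ (Pool.Agent.Q43.RP.relations K π) = ⊥ := by
    rw [Submodule.span_eq_bot]
    intro x hx
    exact h1 hx
  rw [Pool.Agent.Q43.RP.defect, h2]
  exact finrank_bot _ _

theorem two_le_finrank (K : Type) [Field K] [NumberField K] [IsCMField K] :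
    2 ≤ finrank ℚ K := by
  rw [← Embeddings.card K ℂ]
  obtain ⟨φ⟩ : Nonempty (K →+* ℂ) := inferInstance
  have h1 : ComplexEmbedding.conjugate φ ≠ φ := fun h =>
    IsTotallyComplex.complexEmbedding_not_isReal φ h
  exact Fintype.one_lt_card_iff.2 ⟨_, _, h1⟩

/-- **The motivic Sato-Tate conjecture** for Weil numbers without relations. -/
theorem satoTate {I : Type} [Fintype I] {K : I → Type} [∀ i, Field (K i)]
    [∀ i, NumberField (K i)] [∀ i, IsCMField (K i)] {π : ∀ i, K i} {q : ℕ} (hq : 0 < q)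
    (hw : ∀ i, π i * IsCMField.complexConj (K i) (π i) = (q : K i))
    (h : MaximalAngleRank q π) : SatoTate q K π := by
  intro ℓ _ H T Γ _ _ _ _ _ _ per ω₀ ρ χ ω hA hD γ hχ hγ Δ hΔ R _ _
  have hweil : ∀ i, ∀ φ : K i →+* ℂ, ‖φ (π i)‖ ^ 2 = (q : ℝ) := by
    intro i φ
    have h1 := congrArg φ (hw i)
    rw [map_mul, map_natCast, IsCMField.complexEmbedding_complexConj, Complex.mul_conj] at h1
    have h2 : ((Complex.normSq (φ (π i)) : ℝ) : ℂ) = ((q : ℝ) : ℂ) := by
      rw [h1]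
      norm_cast
    rw [← Complex.normSq_eq_norm_sq]
    exact_mod_cast h2
  have hq' : (0 : ℚ) < (q : ℚ) := Nat.cast_pos.2 hq
  have hweil' : ∀ i, ∀ φ : K i →+* ℂ, ‖φ (π i)‖ ^ 2 = (((q : ℚ) : ℝ)) := by
    intro i φ
    rw [hweil]
    norm_cast
  have hDf : finrank ℤ (Pool.Agent.Q43.RP.relLat K π) = 0 := defect_zero h
  have hS := Pool.Agent.Q43.RP.shortFree_of_defect K (g := 1)
    (fun i => by have := two_le_finrank (K i); omega) hq' π hweil' (k := 4) (by
    rw [hDf]
    omega)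
  have key : monodromy ρ χ Δ R = motivic per ρ χ Δ R := by
    refine tannakian_eq ((finBasis ℚ H).baseChange ℚ_[ℓ]) (fun m φ hφ => hφ.1)
      (fun m φ hφ => ?_) R
    exact descent (finBasis ℚ H) per ρ χ hD Δ
      (Pool.Agent.Q43.RP.mt_free K hq π hweil hS hA γ hχ hγ m φ ⟨Δ, hΔ, hφ⟩) hφ
  exact ⟨key, by rw [key]⟩

end Pool.Agent.Q29.GS
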