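import Pool.Agent.Q29.GS.Forms

/-!
# Alternating maps which are equivariant over the whole variety
-/

set_option autoImplicit false
set_option linter.unusedSectionVars false

namespace Pool.Agent.Q29.GS

open NumberField Module Pool.Agent.Q50.GS Pool.Agent.Y137.SL Pool.Agent.Y137.MV Pool.Agent.Y1.CT
  Pool.Agent.Y1.TS

section

variable {k : Type} [Field k] {V M : Type} [AddCommGroup V] [Module k V]
  [AddCommGroup M] [Module k M] {G D : Type} [Group G] [Group D]

theorem pair_eq {X : Type} (s : X → X) {n : ℕ} (x y : Fin n → X) :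
    (![fun j => s (x j), fun j => s (y j)] : Fin 2 → Fin n → X) =
      fun ε j => s ((![x, y] : Fin 2 → Fin n → X) ε j) := by
  funext ε
  fin_cases ε
  · rfl
  · rfl

/-- If the Tate forms and the Tate vectors at the point are Tate forms and Tate vectors on the
variety, the linear combinations of products are equivariant on the variety. -/
theorem equivariant_of_span {ρ : Representation k G V} {χ : G →* k} {τ : Representation k G M}
    (i : D →* G) {n m : ℕ} {g : (Fin n → V) [⋀^Fin m × Fin 2]→ₗ[k] M}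
    (hg : g ∈ Submodule.span k {h : (Fin n → V) [⋀^Fin m × Fin 2]→ₗ[k] M |
      IsProduct (ρ.comp i) (χ.comp i) (τ.comp i) h})
    (hB : ∀ B : (Fin n → V) [⋀^Fin 2]→ₗ[k] k, IsTateForm (ρ.comp i) (χ.comp i) B →
      IsTateForm ρ χ B)
    (hw : ∀ w : M, IsTateVector (τ.comp i) (χ.comp i) m w → IsTateVector τ χ m w) :
    IsEquivariant ρ τ g := by
  refine Submodule.span_induction (p := fun g _ => IsEquivariant ρ τ g) ?_ ?_ ?_ ?_ hg
  · rintro h ⟨B, w, h1, h2, h3⟩
    choose Δ hΔ h4 using fun l => hB (B l) (h1 l)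
    obtain ⟨Δ', hΔ', h5⟩ := hw w h2
    have := hΔ
    have : (⨅ l, Δ l).FiniteIndex := Subgroup.finiteIndex_iInf hΔ
    refine ⟨(⨅ l, Δ l) ⊓ Δ', inferInstance, fun s hs v => ?_⟩
    have hsl : ∀ l, s ∈ Δ l := fun l => (Subgroup.mem_iInf.1 hs.1) l
    rw [h3, h3, map_smul, h5 s hs.2, smul_smul, Finset.sum_mul]
    congr 1
    refine Finset.sum_congr rfl fun σ _ => ?_
    rw [mul_assoc]
    congr 1
    have h6 : ∀ l, B l ![fun j => ρ s (v (σ (l, 0)) j), fun j => ρ s (v (σ (l, 1)) j)] =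
        χ s * B l ![v (σ (l, 0)), v (σ (l, 1))] := by
      intro l
      rw [pair_eq (fun x => ρ s x)]
      exact h4 l s (hsl l) _
    simp only [h6]
    rw [Finset.prod_mul_distrib, Finset.prod_const, Finset.card_univ, Fintype.card_fin, mul_comm]
  · exact ⟨⊤, inferInstance, fun s _ v => by simp⟩
  · rintro g₁ g₂ _ _ ⟨Δ₁, hΔ₁, h1⟩ ⟨Δ₂, hΔ₂, h2⟩
    refine ⟨Δ₁ ⊓ Δ₂, inferInstance, fun s hs v => ?_⟩
    rw [AlternatingMap.add_apply, AlternatingMap.add_apply, h1 s hs.1, h2 s hs.2, map_add]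
  · rintro c g₁ _ ⟨Δ₁, hΔ₁, h1⟩
    refine ⟨Δ₁, hΔ₁, fun s hs v => ?_⟩
    rw [AlternatingMap.smul_apply, AlternatingMap.smul_apply, h1 s hs, map_smul]

theorem vec_update {X : Type} (x y z : X) :
    (![x, y] : Fin 2 → X) = Function.update ![z, y] 0 x := by
  funext t
  fin_cases t
  · rfl
  · rfl

theorem vec_update' {X : Type} (x y z : X) :
    (![x, y] : Fin 2 → X) = Function.update ![x, z] 1 y := by
  funext t
  fin_cases t
  · rfl
  · rfl

/-- The component of a form of degree two. -/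
noncomputable def comp2 {n : ℕ} (B : (Fin n → V) [⋀^Fin 2]→ₗ[k] k) (r : Fin 2 → Fin n) :
    V →ₗ[k] V →ₗ[k] k :=
  LinearMap.mk₂ k (fun u v => B ![Pi.single (r 0) u, Pi.single (r 1) v])
    (fun u u' v => by
      rw [Pi.single_add, vec_update _ _ 0, B.map_update_add, ← vec_update, ← vec_update])
    (fun c u v => by
      rw [Pi.single_smul, vec_update _ _ 0, B.map_update_smul, ← vec_update])
    (fun u v v' => by
      rw [Pi.single_add, vec_update' _ _ 0, B.map_update_add, ← vec_update', ← vec_update'])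
    (fun c u v => by
      rw [Pi.single_smul, vec_update' _ _ 0, B.map_update_smul, ← vec_update'])

theorem comp2_apply {n : ℕ} (B : (Fin n → V) [⋀^Fin 2]→ₗ[k] k) (r : Fin 2 → Fin n) (u v : V) :
    comp2 B r u v = B ![Pi.single (r 0) u, Pi.single (r 1) v] := rfl

theorem form2_sum {n : ℕ} (B : (Fin n → V) [⋀^Fin 2]→ₗ[k] k) (v : Fin 2 → Fin n → V) :
    B v = ∑ r : Fin 2 → Fin n, comp2 B r (v 0 (r 0)) (v 1 (r 1)) := by
  classical
  have h1 := B.toMultilinearMap.map_sum (fun (ε : Fin 2) (j : Fin n) =>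
    (Pi.single j (v ε j) : Fin n → V))
  have h2 : (fun ε : Fin 2 => ∑ j : Fin n, (Pi.single j (v ε j) : Fin n → V)) = v := by
    funext ε
    exact Finset.univ_sum_single (v ε)
  rw [h2] at h1
  change B v = _ at h1
  rw [h1]
  refine Finset.sum_congr rfl fun r _ => ?_
  rw [comp2_apply]
  change B _ = B _
  congr 1
  funext ε
  fin_cases ε
  · rfl
  · rfl

/-- If the bilinear forms at the point extend to the variety, so do the forms on `V ^ n`. -/
theorem tateForm_extend {ρ : Representation k G V} {χ : G →* k} {i : D →* G}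
    (hE : FormsExtend ρ χ i) {n : ℕ} (B : (Fin n → V) [⋀^Fin 2]→ₗ[k] k)
    (h : IsTateForm (ρ.comp i) (χ.comp i) B) : IsTateForm ρ χ B := by
  obtain ⟨Δ, hΔ, h1⟩ := h
  have h2 : ∀ r : Fin 2 → Fin n, ∃ Δ : Subgroup G, Δ.FiniteIndex ∧ ∀ s ∈ Δ, ∀ u v,
      comp2 B r (ρ s u) (ρ s v) = χ s * comp2 B r u v := by
    intro r
    refine hE (comp2 B r) ⟨Δ, hΔ, fun s hs u v => ?_⟩
    rw [comp2_apply, comp2_apply]
    have h3 := h1 s hs ![Pi.single (r 0) u, Pi.single (r 1) v]
    have h4 : ∀ (j : Fin n) (u : V), (fun j' => ρ (i s) ((Pi.single j u : Fin n → V) j')) =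
        Pi.single j (ρ (i s) u) := by
      intro j u
      funext j'
      by_cases hj : j' = j
      · subst hj
        simp
      · rw [Pi.single_eq_of_ne hj, Pi.single_eq_of_ne hj, map_zero]
    have h5 : (fun (ε : Fin 2) (j : Fin n) => (ρ.comp i) s
        ((![Pi.single (r 0) u, Pi.single (r 1) v] : Fin 2 → Fin n → V) ε j)) =
        ![Pi.single (r 0) (ρ (i s) u), Pi.single (r 1) (ρ (i s) v)] := by
      rw [← h4, ← h4]
      exact (pair_eq (fun x => ρ (i s) x) _ _).symm
    rw [h5] at h3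
    exact h3
  choose Δ' hΔ' h3 using h2
  have : (⨅ r, Δ' r).FiniteIndex := Subgroup.finiteIndex_iInf hΔ'
  refine ⟨⨅ r, Δ' r, inferInstance, fun s hs v => ?_⟩
  have hsr : ∀ r, s ∈ Δ' r := fun r => (Subgroup.mem_iInf.1 hs) r
  rw [form2_sum B v, form2_sum B, Finset.mul_sum]
  exact Finset.sum_congr rfl fun r _ => h3 r s (hsr r) _ _

end

end Pool.Agent.Q29.GS
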